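import Mathlib

set_option autoImplicit false

namespace Pool.Agent.Hc0ccbe

open scoped Pointwise
open Finset

abbrev V := Bool × ℕ
abbrev PV := Equiv.Perm V

def ec (E : Finset (Finset V)) (X : Finset V) : ℕ := (E.filter (· ⊆ X)).card
def dl (E : Finset (Finset V)) (X : Finset V) : ℤ := X.card - ec E X

variable {E E' E0 : Finset (Finset V)} {A A' B C D X Y : Finset V} {p q : PV}

lemma ec_super : ec E X + ec E Y ≤ ec E (X ∪ Y) + ec E (X ∩ Y) := by
  unfold ec
  rw [← card_union_add_card_inter]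
  refine add_le_add (card_le_card ?_) (card_le_card ?_)
  · intro e he
    rcases mem_union.1 he with h | h
    · exact mem_filter.2 ⟨(mem_filter.1 h).1, (mem_filter.1 h).2.trans subset_union_left⟩
    · exact mem_filter.2 ⟨(mem_filter.1 h).1, (mem_filter.1 h).2.trans subset_union_right⟩
  · intro e he
    obtain ⟨h1, h2⟩ := mem_inter.1 he
    exact mem_filter.2 ⟨(mem_filter.1 h1).1, subset_inter (mem_filter.1 h1).2 (mem_filter.1 h2).2⟩

lemma dl_sub : dl E (X ∪ Y) + dl E (X ∩ Y) ≤ dl E X + dl E Y := by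
  have h1 := ec_super (E := E) (X := X) (Y := Y)
  have h2 := card_union_add_card_inter X Y
  unfold dl
  omega

def Str (E : Finset (Finset V)) (D : Finset V) : Prop := ∀ X, D ⊆ X → dl E D ≤ dl E X

lemma Str.inter (h : Str E D) (X : Finset V) : dl E (X ∩ D) ≤ dl E X := by
  have h1 := dl_sub (E := E) (X := X) (Y := D)
  have h2 := h (X ∪ D) subset_union_right
  omega

structure Valid (A : Finset V) (E : Finset (Finset V)) : Prop where
  sub : ∀ e ∈ E, e ⊆ A
  card : ∀ e ∈ E, e.card = 4
  typ : ∀ e ∈ E, (e.filter (·.1 = true)).card = 1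
  K : ∀ X : Finset V, 5 ≤ X.card → 4 ≤ dl E X

structure Ext (A : Finset V) (E : Finset (Finset V)) (A' : Finset V) (E' : Finset (Finset V)) :
    Prop where
  sub : A ⊆ A'
  res : ∀ e ⊆ A, e ∈ E ↔ e ∈ E'
  str : ∀ X, dl E' (X ∩ A) ≤ dl E' X

lemma dl_congr (h : ∀ e ⊆ X, e ∈ E ↔ e ∈ E') : dl E X = dl E' X := by
  unfold dl ec
  congr 3
  ext e
  simp only [mem_filter]
  exact and_congr_left fun he => h e he

lemma Ext.str_trans (h : Ext A E A' E') (hD : D ⊆ A) (hs : Str E D) : Str E' D := by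
  intro X hX
  rw [← dl_congr fun e he => h.res e (he.trans hD)]
  refine (hs (X ∩ A) (subset_inter hX hD)).trans ?_
  rw [dl_congr fun e he => h.res e (he.trans inter_subset_right)]
  exact h.str X

lemma Valid.str (h : Valid A E) (hA : A ⊆ B) (X : Finset V) : dl E (X ∩ B) ≤ dl E X := by
  unfold dl ec
  have h1 : E.filter (· ⊆ X ∩ B) = E.filter (· ⊆ X) := filter_congr fun e he =>
    ⟨fun h' => h'.trans inter_subset_left, fun h' => subset_inter h' ((h.sub e he).trans hA)⟩
  have h2 := card_le_card (inter_subset_left : X ∩ B ⊆ X)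
  rw [h1]
  omega

lemma Valid.ext (h : Valid A E) (hA : A ⊆ B) : Ext A E B E :=
  ⟨hA, fun _ _ => Iff.rfl, h.str subset_rfl⟩

lemma Valid.mono (h : Valid A E) (hA : A ⊆ B) : Valid B E :=
  ⟨fun e he => (h.sub e he).trans hA, h.card, h.typ, h.K⟩

lemma Ext.trans {A'' : Finset V} {E'' : Finset (Finset V)} (h : Ext A E A' E')
    (h' : Ext A' E' A'' E'') : Ext A E A'' E'' := by
  refine ⟨h.sub.trans h'.sub, fun e he => (h.res e he).trans (h'.res e (he.trans h.sub)),
    fun X => le_trans ?_ (h'.str X)⟩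
  rw [← dl_congr fun e he => h'.res e (he.trans inter_subset_right),
    ← dl_congr fun e he => h'.res e (he.trans (inter_subset_right.trans h.sub))]
  have := h.str (X ∩ A')
  rwa [inter_assoc, inter_eq_right.2 h.sub] at this

lemma Ext.strA (h : Ext A E A' E') : Str E' A := fun X hX => by
  have := h.str X
  rwa [inter_eq_right.2 hX] at this

lemma dl_smul (h : ∀ e ⊆ X, e ∈ E0 ↔ p • e ∈ E) : dl E (p • X) = dl E0 X := by
  unfold dl ec
  rw [card_smul_finset]
  congr 2
  symm
  refine card_bij (fun e _ => p • e) (fun e he => ?_) (fun e _ e' _ hh => smul_left_cancel p hh)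
    (fun e he => ?_)
  · rw [mem_filter] at he ⊢
    exact ⟨(h e he.2).1 he.1, smul_finset_subset_smul_finset he.2⟩
  · rw [mem_filter] at he
    have h1 : p⁻¹ • e ⊆ X := by
      have := smul_finset_subset_smul_finset (a := p⁻¹) he.2
      rwa [inv_smul_smul] at this
    exact ⟨p⁻¹ • e, mem_filter.2 ⟨(h _ h1).2 (by rw [smul_inv_smul]; exact he.1), h1⟩,
      smul_inv_smul _ _⟩

lemma smul_congr (h : ∀ v ∈ X, q v = p v) : q • X = p • X :=
  image_congr fun v hv => h v hv

def Sorted (p : PV) : Prop := ∀ v, (p v).1 = v.1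

lemma Sorted.swap (hp : Sorted p) {x z : V} (h : x.1 = z.1) : Sorted (Equiv.swap (p x) z * p) := by
  intro v
  rw [Equiv.Perm.mul_apply, Equiv.swap_apply_def]
  split_ifs with h1 h2
  · rw [← h, p.injective h1]
  · rw [hp, h, ← h2, hp]
  · exact hp v

lemma Sorted.inv (hp : Sorted p) : Sorted p⁻¹ := fun v => by
  rw [← hp (p⁻¹ v)]; simp

lemma Sorted.typ (hp : Sorted p) (X : Finset V) :
    ((p • X).filter (·.1 = true)).card = (X.filter (·.1 = true)).card := by
  rw [← card_smul_finset p (X.filter _)]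
  congr 1
  ext v
  simp only [mem_filter, mem_smul_finset]
  constructor
  · rintro ⟨⟨w, hw, rfl⟩, h⟩
    exact ⟨w, ⟨hw, (hp w).symm.trans h⟩, rfl⟩
  · rintro ⟨w, ⟨hw, h⟩, rfl⟩
    exact ⟨⟨w, hw, rfl⟩, (hp w).trans h⟩

lemma swap_on {x z d : V} (h1 : d ≠ x) (h2 : p d ≠ z) : (Equiv.swap (p x) z * p) d = p d := by
  rw [Equiv.Perm.mul_apply, Equiv.swap_apply_of_ne_of_ne (p.injective.ne h1) h2]

lemma fresh (hp : Sorted p) (D C S : Finset V) (hS : ∀ x ∈ S, x ∉ D) :
    ∃ q : PV, Sorted q ∧ (∀ d ∈ D, q d = p d) ∧ ∀ x ∈ S, q x ∉ C := by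
  induction S using Finset.induction_on with
  | empty => exact ⟨p, hp, fun _ _ => rfl, by simp⟩
  | insert x S hx ih =>
    obtain ⟨q, h1, h2, h3⟩ := ih fun y hy => hS y (mem_insert_of_mem hy)
    obtain ⟨n, hn⟩ := Infinite.exists_notMem_finset ((C ∪ q • (D ∪ S)).image Prod.snd)
    have hy : (x.1, n) ∉ C ∪ q • (D ∪ S) := fun h => hn (mem_image_of_mem _ h)
    rw [mem_union, not_or] at hy
    have key : ∀ d ∈ D ∪ S, (Equiv.swap (q x) (x.1, n) * q) d = q d := by
      intro d hd
      refine swap_on ?_ fun h => hy.2 (h ▸ smul_mem_smul_finset hd)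
      rintro rfl
      rcases mem_union.1 hd with h | h
      · exact hS d (mem_insert_self _ _) h
      · exact hx h
    refine ⟨_, h1.swap (x := x) (z := (x.1, n)) rfl,
      fun d hd => by rw [key d (mem_union_left _ hd), h2 d hd], fun y hy' => ?_⟩
    rcases mem_insert.1 hy' with rfl | h
    · rw [Equiv.Perm.mul_apply, Equiv.swap_apply_left]; exact hy.1
    · rw [key y (mem_union_right _ h)]; exact h3 y h

lemma ec_insert {x : V} (hx : x ∉ D) {F : Finset (Finset V)}
    (hF : ∀ e ∈ F, e ∈ E ∧ e ⊆ insert x D ∧ x ∈ e) : ec E D + F.card ≤ ec E (insert x D) := by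
  unfold ec
  rw [← card_union_of_disjoint]
  · refine card_le_card fun e he => ?_
    rcases mem_union.1 he with h | h
    · exact mem_filter.2 ⟨(mem_filter.1 h).1, (mem_filter.1 h).2.trans (subset_insert _ _)⟩
    · exact mem_filter.2 ⟨(hF e h).1, (hF e h).2.1⟩
  · rw [disjoint_left]
    intro e he h
    exact hx ((mem_filter.1 he).2 (hF e h).2.2)

lemma Str.unique (h : Str E D) {x : V} (hx : x ∉ D) {e e' : Finset V} (he : e ∈ E) (he' : e' ∈ E)
    (h1 : e ⊆ insert x D) (h2 : e' ⊆ insert x D) (h3 : x ∈ e) (h4 : x ∈ e') : e = e' := by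
  by_contra hne
  have h5 := ec_insert (E := E) hx (F := {e, e'}) (by
    intro f hf
    rcases mem_insert.1 hf with rfl | hf
    · exact ⟨he, h1, h3⟩
    · rw [mem_singleton.1 hf]; exact ⟨he', h2, h4⟩)
  rw [card_pair hne] at h5
  have h6 := h _ (subset_insert x D)
  unfold dl at h6
  rw [card_insert_of_notMem hx] at h6
  omega

lemma Str.insert (h : Str E D) {x : V} (hx : x ∉ D) {T : Finset V} (hT : T ⊆ D)
    (he : insert x T ∈ E) : Str E (insert x D) := by
  intro X hX
  have h5 := ec_insert (E := E) hx (F := {Insert.insert x T}) (by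
    intro f hf
    rw [mem_singleton.1 hf]
    exact ⟨he, insert_subset_insert _ hT, mem_insert_self _ _⟩)
  have h6 := h X ((subset_insert x D).trans hX)
  rw [card_singleton] at h5
  unfold dl at h6 ⊢
  rw [card_insert_of_notMem hx]
  omega

lemma free_amalgam (hB : Valid B E0) (hC : Valid C E) (hq : Sorted q) (hD : D ⊆ B)
    (hD' : q • D ⊆ C) (hf : ∀ x ∈ B, x ∉ D → q x ∉ C) (s0 : Str E0 D) (s1 : Str E (q • D))
    (iso : ∀ e ⊆ D, e ∈ E0 ↔ q • e ∈ E)
    (hno : ¬ ∃ x ∈ B, x ∉ D ∧ ∃ z, z ∉ q • D ∧ ∃ T ⊆ D, insert x T ∈ E0 ∧ insert z (q • T) ∈ E) :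
    ∃ C' E', Valid C' E' ∧ Ext C E C' E' ∧ q • B ⊆ C' ∧ Str E' (q • B) ∧
      ∀ e ⊆ B, e ∈ E0 ↔ q • e ∈ E' := by
  set E' := E ∪ E0.image (q • ·) with hE'
  have hin : ∀ e ⊆ B, q • e ⊆ C → e ⊆ D := by
    intro e he h v hv
    by_contra hc
    exact hf v (he hv) hc (h (smul_mem_smul_finset hv))
  have ha : ∀ e ⊆ C, e ∈ E ↔ e ∈ E' := by
    intro e he
    refine ⟨fun h => mem_union_left _ h, fun h => ?_⟩
    rcases mem_union.1 h with h | h
    · exact h
    · obtain ⟨e0, h0, rfl⟩ := mem_image.1 h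
      exact (iso e0 (hin e0 (hB.sub e0 h0) he)).1 h0
  have hb : ∀ e ⊆ B, e ∈ E0 ↔ q • e ∈ E' := by
    intro e he
    refine ⟨fun h => mem_union_right _ (mem_image_of_mem _ h), fun h => ?_⟩
    rcases mem_union.1 h with h | h
    · exact (iso e (hin e he (hC.sub _ h))).2 h
    · obtain ⟨e0, h0, h1⟩ := mem_image.1 h
      rwa [← smul_left_cancel q h1]
  have hsub : ∀ e ∈ E', e ⊆ C ∨ e ⊆ q • B := by
    intro e h
    rcases mem_union.1 h with h | h
    · exact Or.inl (hC.sub e h)
    · obtain ⟨e0, h0, rfl⟩ := mem_image.1 h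
      exact Or.inr (smul_finset_subset_smul_finset (hB.sub e0 h0))
  have hcard : ∀ e ∈ E', e.card = 4 := by
    intro e h
    rcases mem_union.1 h with h | h
    · exact hC.card e h
    · obtain ⟨e0, h0, rfl⟩ := mem_image.1 h
      rw [card_smul_finset, hB.card e0 h0]
  have hCB : C ∩ q • B = q • D := by
    refine Subset.antisymm (fun v hv => ?_) (subset_inter hD' (smul_finset_subset_smul_finset hD))
    obtain ⟨h1, h2⟩ := mem_inter.1 hv
    obtain ⟨w, hw, rfl⟩ := mem_smul_finset.1 h2
    by_cases h : w ∈ D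
    · exact smul_mem_smul_finset h
    · exact absurd h1 (hf w hw h)
  have hmod : ∀ X, dl E' (X ∩ C) + dl E' (X ∩ q • B) ≤ dl E' X + dl E' (X ∩ q • D) := by
    intro X
    have h1 := card_union_add_card_inter (X ∩ C) (X ∩ q • B)
    have h0 : X ∩ C ∩ (X ∩ q • B) = X ∩ q • D := by
      rw [← hCB]; ext v; simp only [mem_inter]; tauto
    have h2 : ((X ∩ C) ∪ (X ∩ q • B)).card ≤ X.card :=
      card_le_card (union_subset inter_subset_left inter_subset_left)
    have h3 := card_union_add_card_inter (E'.filter (· ⊆ X ∩ C)) (E'.filter (· ⊆ X ∩ q • B))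
    have h4 : (E'.filter (· ⊆ X)).card ≤
        (E'.filter (· ⊆ X ∩ C) ∪ E'.filter (· ⊆ X ∩ q • B)).card := by
      refine card_le_card fun e he => ?_
      obtain ⟨h5, h6⟩ := mem_filter.1 he
      rcases hsub e h5 with h | h
      · exact mem_union_left _ (mem_filter.2 ⟨h5, subset_inter h6 h⟩)
      · exact mem_union_right _ (mem_filter.2 ⟨h5, subset_inter h6 h⟩)
    have h5 : (E'.filter (· ⊆ X ∩ q • D)).card ≤
        (E'.filter (· ⊆ X ∩ C) ∩ E'.filter (· ⊆ X ∩ q • B)).card := by
      refine card_le_card fun e he => ?_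
      obtain ⟨h5, h6⟩ := mem_filter.1 he
      rw [← h0] at h6
      exact mem_inter.2 ⟨mem_filter.2 ⟨h5, h6.trans inter_subset_left⟩,
        mem_filter.2 ⟨h5, h6.trans inter_subset_right⟩⟩
    rw [h0] at h1
    unfold dl ec
    omega
  have hdC : ∀ X, dl E' (X ∩ C) = dl E (X ∩ C) := fun X =>
    (dl_congr fun e he => ha e (he.trans inter_subset_right)).symm
  have hdB : ∀ X, dl E' (X ∩ q • B) = dl E0 (q⁻¹ • X ∩ B) := fun X => by
    rw [← dl_smul fun e he => hb e (he.trans inter_subset_right), smul_finset_inter,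
      smul_inv_smul]
  have hsC : ∀ X, dl E' (X ∩ q • D) ≤ dl E' (X ∩ C) := fun X => by
    have := s1.inter (X ∩ C)
    rw [inter_assoc, inter_eq_right.2 hD'] at this
    rw [hdC, ← dl_congr fun e he => ha e (he.trans (inter_subset_right.trans hD'))]
    exact this
  have hsB : ∀ X, dl E' (X ∩ q • D) ≤ dl E' (X ∩ q • B) := fun X => by
    have := s0.inter (q⁻¹ • X ∩ B)
    rw [inter_assoc, inter_eq_right.2 hD] at this
    rw [hdB]
    refine le_trans (le_of_eq ?_) this
    rw [← dl_smul fun e he => hb e (he.trans (inter_subset_right.trans hD)), smul_finset_inter,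
      smul_inv_smul]
  refine ⟨C ∪ q • B, E', ⟨fun e he => ?_, hcard, fun e h => ?_, fun X hX => ?_⟩,
    ⟨subset_union_left, ha, fun X => ?_⟩, subset_union_right, fun X hX => ?_, hb⟩
  · rcases hsub e he with h | h
    · exact h.trans subset_union_left
    · exact h.trans subset_union_right
  · rcases mem_union.1 h with h | h
    · exact hC.typ e h
    · obtain ⟨e0, h0, rfl⟩ := mem_image.1 h
      rw [hq.typ, hB.typ e0 h0]
  · have m := hmod X
    have m1 := hsC X
    have m2 := hsB X
    by_cases c1 : 5 ≤ (X ∩ C).card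
    · have := hC.K _ c1
      rw [← hdC] at this
      omega
    by_cases c2 : 5 ≤ (X ∩ q • B).card
    · have := hB.K (q⁻¹ • X ∩ B) (by
        rw [← card_smul_finset q, smul_finset_inter, smul_inv_smul]; exact c2)
      rw [← hdB] at this
      omega
    by_contra hc
    have h1 : E'.filter (· ⊆ X) ⊆ {X ∩ C, X ∩ q • B} := by
      intro e he
      obtain ⟨h5, h6⟩ := mem_filter.1 he
      have := hcard e h5
      rcases hsub e h5 with h | h
      · exact mem_insert.2 (Or.inl (eq_of_subset_of_card_le (subset_inter h6 h) (by omega)))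
      · exact mem_insert.2 (Or.inr (mem_singleton.2
          (eq_of_subset_of_card_le (subset_inter h6 h) (by omega))))
    have h2 := card_le_card h1
    have h3 : ({X ∩ C, X ∩ q • B} : Finset (Finset V)).card ≤ 2 := card_le_two
    unfold dl ec at hc
    have h4 := eq_of_subset_of_card_le h1 (by omega)
    have hU : X ∩ C ∈ E' := (mem_filter.1 (h4 ▸ mem_insert_self _ _ : _ ∈ E'.filter (· ⊆ X))).1
    have hW : X ∩ q • B ∈ E' := (mem_filter.1 (h4 ▸ mem_insert_of_mem (mem_singleton_self _) :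
      _ ∈ E'.filter (· ⊆ X))).1
    have hne : X ∩ C ≠ X ∩ q • B := by
      intro h
      rw [h, pair_eq_singleton, card_singleton] at h2
      omega
    have cU := hcard _ hU
    have cW := hcard _ hW
    have h5 := card_union_add_card_inter (X ∩ C) (X ∩ q • B)
    have h0 : X ∩ C ∩ (X ∩ q • B) = X ∩ q • D := by
      rw [← hCB]; ext v; simp only [mem_inter]; tauto
    have h6 : ((X ∩ C) ∪ (X ∩ q • B)).card ≤ X.card :=
      card_le_card (union_subset inter_subset_left inter_subset_left)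
    rw [h0] at h5
    have t1 : X ∩ q • D ⊆ X ∩ C := h0 ▸ inter_subset_left
    have t2 : X ∩ q • D ⊆ X ∩ q • B := h0 ▸ inter_subset_right
    have h7 : (X ∩ q • D).card = 3 := by
      have := card_le_card t1
      by_contra h
      exact hne ((eq_of_subset_of_card_le t1 (by omega)).symm.trans
        (eq_of_subset_of_card_le t2 (by omega)))
    obtain ⟨z, hz, ez⟩ := exists_eq_insert_iff.2 ⟨t1, by omega⟩
    obtain ⟨x, hx, ex⟩ := exists_eq_insert_iff.2 ⟨t2, by omega⟩
    have hzX : z ∈ X ∩ C := ez ▸ mem_insert_self _ _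
    have hxX : x ∈ X ∩ q • B := ex ▸ mem_insert_self _ _
    obtain ⟨w, hw, rfl⟩ := mem_smul_finset.1 (mem_inter.1 hxX).2
    have eT : q • (q⁻¹ • X ∩ D) = X ∩ q • D := by rw [smul_finset_inter, smul_inv_smul]
    refine hno ⟨w, hw, fun h => hx (mem_inter.2 ⟨(mem_inter.1 hxX).1, smul_mem_smul_finset h⟩), z,
      fun h => hz (mem_inter.2 ⟨(mem_inter.1 hzX).1, h⟩), q⁻¹ • X ∩ D, inter_subset_right, ?_, ?_⟩
    · rw [hb _ (insert_subset hw (inter_subset_right.trans hD)), smul_finset_insert, eT, ex]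
      exact hW
    · rw [eT, ez, ha _ inter_subset_right]
      exact hU
  · have := hmod X
    have := hsB X
    omega
  · have := hmod X
    have := hsC X
    rw [inter_eq_right.2 hX] at *
    omega

theorem amalgam (hB : Valid B E0) (hC : Valid C E) (n : ℕ) : ∀ (D : Finset V) (p : PV),
    (B \ D).card = n → Sorted p → D ⊆ B → p • D ⊆ C → Str E0 D → Str E (p • D) →
    (∀ e ⊆ D, e ∈ E0 ↔ p • e ∈ E) →
    ∃ C' E' q, Valid C' E' ∧ Ext C E C' E' ∧ Sorted q ∧ (∀ d ∈ D, q d = p d) ∧ q • B ⊆ C' ∧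
      Str E' (q • B) ∧ ∀ e ⊆ B, e ∈ E0 ↔ q • e ∈ E' := by
  induction n using Nat.strong_induction_on with
  | _ n ih =>
  intro D p hn hp hD hD' s0 s1 iso
  by_cases hno : ∃ x ∈ B, x ∉ D ∧ ∃ z, z ∉ p • D ∧ ∃ T ⊆ D, insert x T ∈ E0 ∧ insert z (p • T) ∈ E
  · obtain ⟨x, hxB, hxD, z, hz, T, hT, e1, e2⟩ := hno
    have hT' : p • T ⊆ p • D := smul_finset_subset_smul_finset hT
    have hs : x.1 = z.1 := by
      have t1 := hB.typ _ e1
      have t2 := hC.typ _ e2
      have t3 := hp.typ T
      rw [filter_insert] at t1 t2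
      have n1 : x ∉ T.filter (·.1 = true) := fun h => hxD (hT (mem_filter.1 h).1)
      have n2 : z ∉ (p • T).filter (·.1 = true) := fun h => hz (hT' (mem_filter.1 h).1)
      split_ifs at t1 t2 with c1 c2 c2
      · rw [c1, c2]
      · rw [card_insert_of_notMem n1] at t1; omega
      · rw [card_insert_of_notMem n2] at t2; omega
      · rw [Bool.not_eq_true] at c1 c2; rw [c1, c2]
    set p1 := Equiv.swap (p x) z * p with hp1
    have on : ∀ d ∈ D, p1 d = p d := fun d hd =>
      swap_on (fun h => hxD (h ▸ hd)) fun h => hz (h ▸ smul_mem_smul_finset hd)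
    have px : p1 x = z := by rw [hp1, Equiv.Perm.mul_apply, Equiv.swap_apply_left]
    have ins : ∀ T ⊆ D, p1 • insert x T = insert z (p • T) := fun T hT => by
      rw [smul_finset_insert, smul_congr fun v hv => on v (hT hv)]
      exact congrArg (insert · _) px
    obtain ⟨C', E', q, h1, h2, h3, h4, h5⟩ := ih (B \ insert x D).card (by
        rw [← hn]
        refine card_lt_card ⟨sdiff_subset_sdiff subset_rfl (subset_insert _ _), fun h => ?_⟩
        exact (mem_sdiff.1 (h (mem_sdiff.2 ⟨hxB, hxD⟩))).2 (mem_insert_self _ _))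
      (insert x D) p1 rfl (hp.swap hs) (insert_subset hxB hD)
      (by rw [ins D subset_rfl]; exact insert_subset (hC.sub _ e2 (mem_insert_self _ _)) hD')
      (s0.insert hxD hT e1) (by rw [ins D subset_rfl]; exact s1.insert hz hT' e2) (by
        intro e he
        by_cases hx : x ∈ e
        · constructor
          · intro h
            rw [s0.unique hxD h e1 he (insert_subset_insert _ hT) hx (mem_insert_self _ _),
              ins T hT]
            exact e2
          · intro h
            have := s1.unique hz h e2 (by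
              rw [← ins D subset_rfl]; exact smul_finset_subset_smul_finset he)
              (insert_subset_insert _ hT') (px ▸ smul_mem_smul_finset hx) (mem_insert_self _ _)
            rw [← ins T hT] at this
            rw [smul_left_cancel p1 this]
            exact e1
        · have he' : e ⊆ D := (subset_insert_iff_of_notMem hx).1 he
          rw [smul_congr fun v hv => on v (he' hv)]
          exact iso e he')
    exact ⟨C', E', q, h1, h2, h3, fun d hd => by rw [h4 d (mem_insert_of_mem hd), on d hd], h5⟩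
  · obtain ⟨q, q1, q2, q3⟩ := fresh hp D C (B \ D) fun x hx => (mem_sdiff.1 hx).2
    have hq : ∀ T ⊆ D, q • T = p • T := fun T hT => smul_congr fun v hv => q2 v (hT hv)
    obtain ⟨C', E', h1, h2, h3⟩ := free_amalgam hB hC q1 hD (by rwa [hq D subset_rfl])
      (fun x hx hx' => q3 x (mem_sdiff.2 ⟨hx, hx'⟩)) s0 (by rwa [hq D subset_rfl])
      (fun e he => by rw [hq e he]; exact iso e he) (by
        rintro ⟨x, h1, h2, z, h3, T, hT, h4, h5⟩
        rw [hq D subset_rfl] at h3
        rw [hq T hT] at h5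
        exact hno ⟨x, h1, h2, z, h3, T, hT, h4, h5⟩)
    exact ⟨C', E', q, h1, h2, q1, q2, h3⟩

end Pool.Agent.Hc0ccbe
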