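import Pool.Agent.H.MP_c0ccbe_al.Amal

set_option autoImplicit false

namespace Pool.Agent.Hc0ccbe

open scoped Pointwise
open Finset

variable {E E' : Finset (Finset V)} {A A' D : Finset V} {p : PV}

structure PI (A : Finset V) (E : Finset (Finset V)) (p : PV) (D : Finset V) : Prop where
  sorted : Sorted p
  sub : D ⊆ A
  sub' : p • D ⊆ A
  s0 : Str E D
  s1 : Str E (p • D)
  iso : ∀ e ⊆ D, e ∈ E ↔ p • e ∈ E

lemma PI.ext (h : PI A E p D) (h' : Ext A E A' E') : PI A' E' p D :=
  ⟨h.sorted, h.sub.trans h'.sub, h.sub'.trans h'.sub, h'.str_trans h.sub h.s0,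
    h'.str_trans h.sub' h.s1, fun e he => by
      rw [← h'.res e (he.trans h.sub),
        ← h'.res _ ((smul_finset_subset_smul_finset he).trans h.sub')]
      exact h.iso e he⟩

lemma PI.inv (h : PI A E p D) : PI A E p⁻¹ (p • D) :=
  ⟨h.sorted.inv, h.sub', by rw [inv_smul_smul]; exact h.sub, h.s1,
    by rw [inv_smul_smul]; exact h.s0, fun e he => by
      have h1 : p⁻¹ • e ⊆ D := by
        have := smul_finset_subset_smul_finset (a := p⁻¹) he
        rwa [inv_smul_smul] at this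
      rw [h.iso _ h1, smul_inv_smul]⟩

lemma forth (hv : Valid A E) (h : PI A E p D) :
    ∃ A' E' q, Valid A' E' ∧ Ext A E A' E' ∧ PI A' E' q A ∧ ∀ d ∈ D, q d = p d := by
  obtain ⟨A', E', q, h1, h2, h3, h4, h5, h6, h7⟩ :=
    amalgam hv hv _ D p rfl h.sorted h.sub h.sub' h.s0 h.s1 h.iso
  exact ⟨A', E', q, h1, h2, ⟨h3, h2.sub, h5, h2.strA, h6,
    fun e he => (h2.res e he).symm.trans (h7 e he)⟩, h4⟩

lemma back (hv : Valid A E) (h : PI A E p D) :
    ∃ A' E' q D', Valid A' E' ∧ Ext A E A' E' ∧ PI A' E' q D' ∧ D ⊆ D' ∧ (∀ d ∈ D, q d = p d) ∧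
      q • D' = A := by
  obtain ⟨A', E', q, h1, h2, h3, h4⟩ := forth hv h.inv
  have key : ∀ d ∈ D, q (p d) = d := fun d hd => by
    rw [h4 (p d) (smul_mem_smul_finset hd)]; simp
  refine ⟨A', E', q⁻¹, q • A, h1, h2, h3.inv, fun d hd => ?_, fun d hd => ?_, inv_smul_smul _ _⟩
  · rw [← key d hd]
    exact smul_mem_smul_finset (h.sub' (smul_mem_smul_finset hd))
  · rw [Equiv.Perm.inv_eq_iff_eq, key d hd]

lemma Valid.small (hv : Valid A E) {X : Finset V} (hX : X.card ≤ 4) :
    ec E X = 0 ∨ (X ∈ E ∧ ec E X = 1) := by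
  have h1 : E.filter (· ⊆ X) ⊆ {X} := fun e he => mem_singleton.2
    (eq_of_subset_of_card_le (mem_filter.1 he).2 (by rw [hv.card e (mem_filter.1 he).1]; exact hX))
  rcases subset_singleton_iff.1 h1 with h | h
  · exact Or.inl (by rw [ec, h, card_empty])
  · exact Or.inr ⟨(mem_filter.1 (h ▸ mem_singleton_self X : X ∈ E.filter (· ⊆ X))).1,
      by rw [ec, h, card_singleton]⟩

lemma Valid.str_empty (hv : Valid A E) : Str E ∅ := by
  intro X _
  have h0 : dl E ∅ = 0 := by
    rcases hv.small (X := ∅) (by simp) with h | h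
    · simp [dl, h]
    · have := hv.card _ h.1; simp at this
  rw [h0]
  by_cases h : 5 ≤ X.card
  · have := hv.K X h; omega
  · rcases hv.small (X := X) (by omega) with h | h
    · simp [dl, h]
    · have := hv.card _ h.1
      unfold dl; omega

def pts : ℕ ↪ V := ⟨fun n => (false, n), fun _ _ h => (Prod.mk.inj h).2⟩

def quad (a : Fin 4 ↪ ℕ) : Finset V := univ.map (a.trans pts)

lemma mem_quad (a : Fin 4 ↪ ℕ) (j : Fin 4) : (false, a j) ∈ quad a := mem_map_of_mem _ (mem_univ j)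

lemma Valid.no_edge (hv : Valid A E) (a : Fin 4 ↪ ℕ) {e : Finset V} (he : e ⊆ quad a) : e ∉ E := by
  intro h
  have h1 := hv.typ e h
  rw [filter_eq_empty_iff.2, card_empty] at h1
  · omega
  · intro v hv'
    obtain ⟨j, -, rfl⟩ := mem_map.1 (he hv')
    simp [pts]

lemma Valid.str_quad (hv : Valid A E) (a : Fin 4 ↪ ℕ) : Str E (quad a) := by
  intro X hX
  have hc : (quad a).card = 4 := by simp [quad]
  by_cases h : 5 ≤ X.card
  · have := hv.K X h
    unfold dl at this ⊢
    omega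
  · rw [eq_of_subset_of_card_le hX (by omega)]

abbrev II := (Fin 4 ↪ ℕ) × (Fin 4 ↪ ℕ)

def Init (i : II) (p : PV) (D : Finset V) : Prop :=
  ∀ j, (false, i.1 j) ∈ D ∧ p (false, i.1 j) = (false, i.2 j)

lemma step (hv : Valid A E) (h : PI A E p D) (i : II) (hi : D = ∅ ∨ Init i p D) (v : V) :
    ∃ A' E' q D', Valid A' E' ∧ Ext A E A' E' ∧ PI A' E' q D' ∧ D ⊆ D' ∧ (∀ d ∈ D, q d = p d) ∧
      v ∈ D' ∧ v ∈ q • D' ∧ Init i q D' := by
  set A1 := insert v (A ∪ (quad i.1 ∪ quad i.2)) with hA1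
  have sA : A ⊆ A1 := subset_union_left.trans (subset_insert _ _)
  have e1 : Ext A E A1 E := hv.ext sA
  have v1 : Valid A1 E := hv.mono sA
  obtain ⟨p1, D1, h1, h2, h3, h4⟩ : ∃ p1 D1, PI A1 E p1 D1 ∧ D ⊆ D1 ∧ (∀ d ∈ D, p1 d = p d) ∧
      Init i p1 D1 := by
    rcases hi with rfl | hi
    · obtain ⟨g, hg⟩ := MulAction.isMultiplyPretransitive_iff.1
        (Equiv.Perm.isMultiplyPretransitive ℕ 4) i.1 i.2
      have hg' : ∀ j, g (i.1 j) = i.2 j := fun j => DFunLike.congr_fun hg j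
      let p1 : PV := Equiv.prodCongr (Equiv.refl Bool) g
      have hp : ∀ j, p1 (false, i.1 j) = (false, i.2 j) := fun j => Prod.ext rfl (hg' j)
      have hq : p1 • quad i.1 = quad i.2 := by
        ext w
        rw [mem_smul_finset]
        constructor
        · rintro ⟨u, hu, rfl⟩
          obtain ⟨j, -, rfl⟩ := mem_map.1 hu
          have := mem_quad i.2 j
          rw [← hp j] at this
          exact this
        · intro hw
          obtain ⟨j, -, rfl⟩ := mem_map.1 hw
          exact ⟨_, mem_quad i.1 j, hp j⟩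
      refine ⟨p1, quad i.1, ⟨fun _ => rfl,
        (subset_union_left.trans subset_union_right).trans (subset_insert _ _),
        hq ▸ (subset_union_right.trans subset_union_right).trans (subset_insert _ _),
        hv.str_quad _, hq ▸ hv.str_quad _, fun e he => iff_of_false (hv.no_edge _ he)
          (hv.no_edge i.2 (hq ▸ smul_finset_subset_smul_finset he))⟩, empty_subset _,
        by simp, fun j => ⟨mem_quad _ j, hp j⟩⟩
    · exact ⟨p, D, h.ext e1, subset_rfl, fun _ _ => rfl, hi⟩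
  obtain ⟨A2, E2, q2, v2, e2, k2, a2⟩ := forth v1 h1
  obtain ⟨A3, E3, q3, D3, v3, e3, k3, s3, a3, b3⟩ := back v2 k2
  have hvA : v ∈ A1 := mem_insert_self _ _
  refine ⟨A3, E3, q3, D3, v3, (e1.trans e2).trans e3, k3, (h2.trans h1.sub).trans s3,
    fun d hd => ?_, s3 hvA, b3 ▸ e2.sub hvA, fun j => ⟨s3 (h1.sub (h4 j).1), ?_⟩⟩
  · rw [a3 d (h1.sub (h2 hd)), a2 d (h2 hd), h3 d hd]
  · rw [a3 _ (h1.sub (h4 j).1), a2 _ (h4 j).1, (h4 j).2]

structure Cond where
  A : Finset V
  E : Finset (Finset V)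
  p : II → PV
  D : II → Finset V
  valid : Valid A E
  pi : ∀ i, PI A E (p i) (D i)
  init : ∀ i, D i = ∅ ∨ Init i (p i) (D i)

instance : Preorder Cond where
  le s t := Ext s.A s.E t.A t.E ∧ ∀ i, s.D i ⊆ t.D i ∧ ∀ v ∈ s.D i, t.p i v = s.p i v
  le_refl s := ⟨s.valid.ext subset_rfl, fun _ => ⟨subset_rfl, fun _ _ => rfl⟩⟩
  le_trans _ _ _ h h' := ⟨h.1.trans h'.1, fun i => ⟨(h.2 i).1.trans (h'.2 i).1, fun v hv => by
    rw [(h'.2 i).2 v ((h.2 i).1 hv), (h.2 i).2 v hv]⟩⟩

def task (x : II × V) : Order.Cofinal Cond where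
  carrier := {t | x.2 ∈ t.D x.1 ∧ x.2 ∈ t.p x.1 • t.D x.1 ∧ Init x.1 (t.p x.1) (t.D x.1)}
  isCofinal := by
    classical
    intro s
    obtain ⟨i, v⟩ := x
    obtain ⟨A', E', q, D', h1, h2, h3, h4, h5, h6, h7, h8⟩ := step s.valid (s.pi i) i (s.init i) v
    refine ⟨⟨A', E', Function.update s.p i q, Function.update s.D i D', h1, fun j => ?_,
      fun j => ?_⟩, ?_, h2, fun j => ?_⟩
    · by_cases hj : j = i
      · subst hj; simpa using h3
      · simpa [hj] using (s.pi j).ext h2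
    · by_cases hj : j = i
      · subst hj; exact Or.inr (by simpa using h8)
      · simpa [hj] using s.init j
    · simpa using ⟨h6, h7, h8⟩
    · by_cases hj : j = i
      · subst hj; simp only [Function.update_self]; exact ⟨h4, h5⟩
      · simp [hj]

def e1 : Finset V := {(true, 0), (false, 0), (false, 1), (false, 2)}
def e2 : Finset V := {(true, 0), (false, 0), (false, 3), (false, 4)}

lemma valid0 : Valid (e1 ∪ e2) {e1, e2} := by
  refine ⟨by decide, by decide, by decide, fun X hX => ?_⟩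
  unfold dl ec
  have h1 : ({e1, e2} : Finset (Finset V)).filter (· ⊆ X) ⊆ {e1, e2} := filter_subset _ _
  have h2 := card_le_card h1
  have h3 : ({e1, e2} : Finset (Finset V)).card = 2 := by decide
  by_contra hc
  have h4 := eq_of_subset_of_card_le h1 (by omega)
  have h5 : e1 ⊆ X := (mem_filter.1 (h4.symm ▸ (by decide : e1 ∈ ({e1, e2} : Finset _)) :
    e1 ∈ filter (· ⊆ X) _)).2
  have h6 : e2 ⊆ X := (mem_filter.1 (h4.symm ▸ (by decide : e2 ∈ ({e1, e2} : Finset _)) :
    e2 ∈ filter (· ⊆ X) _)).2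
  have h7 := card_le_card (union_subset h5 h6)
  have h8 : (e1 ∪ e2).card = 6 := by decide
  omega

def s0 : Cond := ⟨e1 ∪ e2, {e1, e2}, fun _ => 1, fun _ => ∅, valid0, fun _ =>
  ⟨fun _ => rfl, empty_subset _, by simp, valid0.str_empty, by simpa using valid0.str_empty,
    by simp⟩, fun _ => Or.inl rfl⟩

theorem exists_limit : ∃ Ed : Set (Finset V), e1 ∈ Ed ∧ e2 ∈ Ed ∧
    (∀ (T : Finset V) (x y : V), x ∉ T → y ∉ T → insert x T ∈ Ed → insert y T ∈ Ed → x = y) ∧
    ∀ a b : Fin 4 ↪ ℕ, ∃ g : PV, Sorted g ∧ (∀ e, e ∈ Ed ↔ g • e ∈ Ed) ∧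
      ∀ j, g (false, a j) = (false, b j) := by
  have : Countable (Fin 4 ↪ ℕ) := DFunLike.coe_injective.countable
  have : Encodable (II × V) := Encodable.ofCountable _
  let s := Order.sequenceOfCofinals s0 task
  have hm : Monotone s := Order.sequenceOfCofinals.monotone s0 task
  have ht : ∀ x, ∃ n, s n ∈ task x := fun x => ⟨_, Order.sequenceOfCofinals.encode_mem s0 task x⟩
  have hE : ∀ n e, e ⊆ (s n).A → ((∃ m, e ∈ (s m).E) ↔ e ∈ (s n).E) := by
    intro n e he
    refine ⟨fun ⟨m, h⟩ => ?_, fun h => ⟨n, h⟩⟩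
    rw [(hm (le_max_left n m)).1.res e he, ← (hm (le_max_right n m)).1.res e ((s m).valid.sub e h)]
    exact h
  refine ⟨{e | ∃ n, e ∈ (s n).E}, ⟨0, (by decide : e1 ∈ ({e1, e2} : Finset _))⟩,
    ⟨0, (by decide : e2 ∈ ({e1, e2} : Finset _))⟩, ?_, fun a b => ?_⟩
  · rintro T x y hx hy ⟨n, hn⟩ ⟨m, hm'⟩
    have h1 := ((hm (le_max_left n m)).1.res _ ((s n).valid.sub _ hn)).1 hn
    have h2 := ((hm (le_max_right n m)).1.res _ ((s m).valid.sub _ hm')).1 hm'
    by_contra hne
    have hv := (s (max n m)).valid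
    have c1 := hv.card _ h1
    have hyx : y ∉ insert x T := by simp [hy, Ne.symm hne]
    have c2 := card_insert_of_notMem hyx
    have h3 := hv.K (insert y (insert x T)) (by omega)
    have h4 : ({insert x T, insert y T} : Finset (Finset V)) ⊆
        (s (max n m)).E.filter (· ⊆ insert y (insert x T)) := by
      intro e he
      rcases mem_insert.1 he with rfl | he
      · exact mem_filter.2 ⟨h1, subset_insert _ _⟩
      · rw [mem_singleton.1 he]
        exact mem_filter.2 ⟨h2, insert_subset_insert _ (subset_insert _ _)⟩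
    have h5 := card_le_card h4
    rw [card_pair fun h => hyx (by rw [h]; exact mem_insert_self _ _)] at h5
    unfold dl ec at h3
    omega
  · choose N hN using ht
    let i : II := (a, b)
    let g : V → V := fun v => (s (N (i, v))).p i v
    have hg : ∀ n, ∀ v ∈ (s n).D i, g v = (s n).p i v := fun n v hv => by
      rw [← ((hm (le_max_left n (N (i, v)))).2 i).2 v hv,
        ((hm (le_max_right n (N (i, v)))).2 i).2 v (hN (i, v)).1]
    have hD : ∀ e : Finset V, ∃ n, e ⊆ (s n).D i := fun e =>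
      ⟨e.sup fun v => N (i, v), fun v hv =>
        ((hm (le_sup (f := fun v => N (i, v)) hv)).2 i).1 (hN (i, v)).1⟩
    have hbij : Function.Bijective g := by
      constructor
      · intro v w h
        obtain ⟨n, hn⟩ := hD {v, w}
        rw [hg n v (hn (by simp)), hg n w (hn (by simp))] at h
        exact ((s n).p i).injective h
      · intro v
        obtain ⟨w, hw, e⟩ := mem_smul_finset.1 (hN (i, v)).2.1
        exact ⟨w, (hg _ w hw).trans e⟩
    refine ⟨Equiv.ofBijective g hbij, fun v => ((s _).pi i).sorted v, fun e => ?_, fun j => ?_⟩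
    · obtain ⟨n, hn⟩ := hD e
      have hp := (s n).pi i
      rw [smul_congr (p := (s n).p i) fun v hv => hg n v (hn hv)]
      exact ((hE n e (hn.trans hp.sub)).trans (hp.iso e hn)).trans
        (hE n _ ((smul_finset_subset_smul_finset hn).trans hp.sub')).symm
    · exact ((hN (i, (false, a j))).2.2 j).2

end Pool.Agent.Hc0ccbe
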